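import Mathlib

set_option autoImplicit false

/-!
# Scalars of modulus different from one are not products of four involutions
-/

namespace Pool.Agent.Y136.HR

universe u v

/-- In a nontrivial normed algebra a scalar `c ≠ 0` with `‖c‖ ≠ 1` is not a product of four
involutions. -/
theorem norm_eq_one_of_four {𝕜 : Type v} [NormedField 𝕜] {R : Type u} [NormedRing R]
    [NormedAlgebra 𝕜 R] [Nontrivial R] {c : 𝕜} (hc : c ≠ 0) {S T U V : R} (hS : S * S = 1)
    (hT : T * T = 1) (hU : U * U = 1) (hV : V * V = 1) (h : c • (1 : R) = S * T * U * V) :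
    ‖c‖ = 1 := by
  -- `A = S T`, so that `A = c V U`
  have hA : S * T = c • (V * U) := by
    have h1 : S * T * U * V * (V * U) = c • (V * U) := by rw [← h, smul_mul_assoc, one_mul]
    rw [← h1]
    have : S * T * U * V * (V * U) = S * T * U * (V * V) * U := by noncomm_ring
    rw [this, hV, mul_one]
    have : S * T * U * U = S * T * (U * U) := by noncomm_ring
    rw [this, hU, mul_one]
  have hB : V * U = c⁻¹ • (S * T) := by rw [hA, smul_smul, inv_mul_cancel₀ hc, one_smul]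
  -- the powers of `A` and of its inverse `T S`
  have p1 : ∀ n : ℕ, (T * S) ^ n = T * (S * T) ^ n * T := by
    intro n
    induction n with
    | zero => rw [pow_zero, pow_zero, mul_one, hT]
    | succ n ih =>
      rw [pow_succ, ih, pow_succ]
      have : T * (S * T) ^ n * T * (T * S) = T * (S * T) ^ n * (T * T) * S := by noncomm_ring
      rw [this, hT, mul_one]
      have : T * ((S * T) ^ n * (S * T)) * T = T * (S * T) ^ n * S * (T * T) := by noncomm_ring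
      rw [this, hT, mul_one]
  have p2 : ∀ n : ℕ, (U * V) ^ n = U * (V * U) ^ n * U := by
    intro n
    induction n with
    | zero => rw [pow_zero, pow_zero, mul_one, hU]
    | succ n ih =>
      rw [pow_succ, ih, pow_succ]
      have : U * (V * U) ^ n * U * (U * V) = U * (V * U) ^ n * (U * U) * V := by noncomm_ring
      rw [this, hU, mul_one]
      have : U * ((V * U) ^ n * (V * U)) * U = U * (V * U) ^ n * V * (U * U) := by noncomm_ring
      rw [this, hU, mul_one]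
  have hinv : T * S = c⁻¹ • (U * V) := by
    -- both are inverse to `S T = c V U`
    have e1 : (T * S) * (S * T) = 1 := by
      have : (T * S) * (S * T) = T * (S * S) * T := by noncomm_ring
      rw [this, hS, mul_one, hT]
    have e2 : (c • (V * U)) * (c⁻¹ • (U * V)) = 1 := by
      rw [smul_mul_smul_comm, mul_inv_cancel₀ hc, one_smul]
      have : (V * U) * (U * V) = V * (U * U) * V := by noncomm_ring
      rw [this, hU, mul_one, hV]
    rw [← hA] at e2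
    calc T * S = T * S * ((S * T) * (c⁻¹ • (U * V))) := by rw [e2, mul_one]
      _ = ((T * S) * (S * T)) * (c⁻¹ • (U * V)) := (mul_assoc _ _ _).symm
      _ = c⁻¹ • (U * V) := by rw [e1, one_mul]
  -- `T A ^ n T = c ^ (-2 n) U A ^ n U`
  have key : ∀ n : ℕ, T * (S * T) ^ n * T = ((c⁻¹) ^ n * (c⁻¹) ^ n) • (U * (S * T) ^ n * U) := by
    intro n
    rw [← p1, hinv, smul_pow, p2, hB, smul_pow, mul_smul_comm, smul_mul_assoc, smul_smul]
  have key2 : ∀ n : ℕ, (S * T) ^ n = ((c⁻¹) ^ n * (c⁻¹) ^ n) • (T * U * (S * T) ^ n * (U * T)) := by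
    intro n
    calc (S * T) ^ n = (T * T) * (S * T) ^ n * (T * T) := by rw [hT, one_mul, mul_one]
      _ = T * (T * (S * T) ^ n * T) * T := by noncomm_ring
      _ = ((c⁻¹) ^ n * (c⁻¹) ^ n) • (T * (U * (S * T) ^ n * U) * T) := by
        rw [key, mul_smul_comm, smul_mul_assoc]
      _ = _ := by
        congr 1
        noncomm_ring
  have key3 : ∀ n : ℕ, U * T * (S * T) ^ n * (T * U) =
      ((c⁻¹) ^ n * (c⁻¹) ^ n) • ((S * T) ^ n) := by
    intro n
    have : U * T * (S * T) ^ n * (T * U) = U * (T * (S * T) ^ n * T) * U := by noncomm_ring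
    rw [this, key, mul_smul_comm, smul_mul_assoc]
    congr 1
    have : U * (U * (S * T) ^ n * U) * U = (U * U) * (S * T) ^ n * (U * U) := by noncomm_ring
    rw [this, hU, one_mul, mul_one]
  have hne : ∀ n : ℕ, 0 < ‖(S * T) ^ n‖ := by
    intro n
    rw [norm_pos_iff]
    have hSu : IsUnit S := ⟨⟨S, S, hS, hS⟩, rfl⟩
    have hTu : IsUnit T := ⟨⟨T, T, hT, hT⟩, rfl⟩
    have hu : IsUnit (S * T) := hSu.mul hTu
    exact (hu.pow n).ne_zero
  set C : ℝ := ‖T * U‖ * ‖U * T‖ with hC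
  have b1 : ∀ n : ℕ, 1 ≤ (‖c‖⁻¹ ^ n * ‖c‖⁻¹ ^ n) * C := by
    intro n
    have h1 : ‖(S * T) ^ n‖ ≤ (‖c‖⁻¹ ^ n * ‖c‖⁻¹ ^ n) * (‖T * U‖ * ‖(S * T) ^ n‖ * ‖U * T‖) := by
      conv_lhs => rw [key2 n]
      rw [norm_smul, norm_mul (c⁻¹ ^ n) (c⁻¹ ^ n), norm_pow, norm_inv]
      gcongr
      exact (norm_mul_le _ _).trans (by gcongr; exact norm_mul_le _ _)
    have h2 : (‖c‖⁻¹ ^ n * ‖c‖⁻¹ ^ n) * (‖T * U‖ * ‖(S * T) ^ n‖ * ‖U * T‖) =
        ((‖c‖⁻¹ ^ n * ‖c‖⁻¹ ^ n) * C) * ‖(S * T) ^ n‖ := by rw [hC]; ring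
    rw [h2] at h1
    exact le_of_mul_le_mul_right (by rw [one_mul]; exact h1) (hne n)
  have b2 : ∀ n : ℕ, ‖c‖⁻¹ ^ n * ‖c‖⁻¹ ^ n ≤ ‖U * T‖ * ‖T * U‖ := by
    intro n
    have h1 : (‖c‖⁻¹ ^ n * ‖c‖⁻¹ ^ n) * ‖(S * T) ^ n‖ ≤ ‖U * T‖ * ‖(S * T) ^ n‖ * ‖T * U‖ := by
      have h3 := congrArg norm (key3 n)
      rw [norm_smul, norm_mul (c⁻¹ ^ n) (c⁻¹ ^ n), norm_pow, norm_inv] at h3
      rw [← h3]
      exact (norm_mul_le _ _).trans (by gcongr; exact norm_mul_le _ _)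
    have h2 : ‖U * T‖ * ‖(S * T) ^ n‖ * ‖T * U‖ = (‖U * T‖ * ‖T * U‖) * ‖(S * T) ^ n‖ := by ring
    rw [h2] at h1
    exact le_of_mul_le_mul_right h1 (hne n)
  have hc0 : 0 < ‖c‖ := norm_pos_iff.2 hc
  by_contra hcon
  rcases lt_or_gt_of_ne hcon with hlt | hgt
  · -- `‖c‖ < 1`
    have h1 : 1 < ‖c‖⁻¹ := (one_lt_inv₀ hc0).2 hlt
    obtain ⟨n, hn⟩ := pow_unbounded_of_one_lt (‖U * T‖ * ‖T * U‖) h1
    have h2 := b2 n
    have h3 : 1 ≤ ‖c‖⁻¹ ^ n := one_le_pow₀ h1.le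
    nlinarith
  · have h1 : ‖c‖⁻¹ < 1 := inv_lt_one_of_one_lt₀ hgt
    have h0 : 0 ≤ ‖c‖⁻¹ := inv_nonneg.2 hc0.le
    have hC0 : 0 ≤ C := by positivity
    obtain ⟨n, hn⟩ := exists_pow_lt_of_lt_one (show (0 : ℝ) < (C + 1)⁻¹ by positivity) h1
    have h2 := b1 n
    have h3 : ‖c‖⁻¹ ^ n ≤ 1 := pow_le_one₀ h0 h1.le
    have h4 : 0 ≤ ‖c‖⁻¹ ^ n := pow_nonneg h0 n
    have h5 : ‖c‖⁻¹ ^ n * (C + 1) < 1 := by
      have := mul_lt_mul_of_pos_right hn (show (0 : ℝ) < C + 1 by positivity)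
      rwa [inv_mul_cancel₀ (by positivity)] at this
    nlinarith

end Pool.Agent.Y136.HR
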