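import Pool.Agent.Y136.HR.InvBase

set_option autoImplicit false
set_option linter.unusedSectionVars false

open scoped InnerProductSpace ENNReal
open Cardinal

namespace Pool.Agent.Y136.HR

universe u v

variable {𝕜 : Type v} [RCLike 𝕜] {H : Type u} [NormedAddCommGroup H] [InnerProductSpace 𝕜 H]
  [CompleteSpace H]

/-- a vector orthogonal to a Hilbert basis is zero -/
theorem eq_zero_of_orth {E : Type u} [NormedAddCommGroup E] [InnerProductSpace 𝕜 E]
    [CompleteSpace E] {ι : Type u} (b : HilbertBasis ι 𝕜 E) (x : E)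
    (h : ∀ i, ⟪b i, x⟫_𝕜 = 0) : x = 0 := by
  apply b.repr.injective
  ext j
  rw [b.repr_apply_apply, h j]
  simp

/-- a closed subspace that contains a complemented copy of `H` is isometric to `H` -/
theorem exists_equiv_subspace (hH : ¬ FiniteDimensional 𝕜 H) (M : Submodule 𝕜 H)
    [CompleteSpace M] (X l : H →L[𝕜] H) (hX : l * X = 1) (hXM : ∀ v, X v ∈ M) :
    Nonempty (M ≃ₗᵢ[𝕜] H) := by
  classical
  have eX : ∀ v, l (X v) = v := fun v => congrArg (fun T : H →L[𝕜] H => T v) hX
  obtain ⟨w, b, hb⟩ := exists_hilbertBasis 𝕜 H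
  obtain ⟨w', b', hb'⟩ := exists_hilbertBasis 𝕜 M
  have hM : ¬ FiniteDimensional 𝕜 M := by
    intro hfd
    apply hH
    let f : H →ₗ[𝕜] M := LinearMap.codRestrict M X.toLinearMap hXM
    have hf : Function.Injective f := by
      intro x y hxy
      have : X x = X y := congrArg (Subtype.val) hxy
      rw [← eX x, ← eX y, this]
    exact FiniteDimensional.of_injective f hf
  have h1 : #w ≤ #w' := by
    by_contra hlt
    rw [not_le] at hlt
    obtain ⟨x, hx1, hx2⟩ := exists_unit_orthogonal b hH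
      (Set.range fun j : w' => ContinuousLinearMap.adjoint X ((b' j : M) : H))
      (lt_of_le_of_lt Cardinal.mk_range_le hlt)
    have hz : (⟨X x, hXM x⟩ : M) = 0 := by
      apply eq_zero_of_orth b'
      intro j
      have := hx2 _ ⟨j, rfl⟩
      rw [ContinuousLinearMap.adjoint_inner_left] at this
      exact this
    have hXx : X x = 0 := congrArg Subtype.val hz
    have : x = 0 := by rw [← eX x, hXx, map_zero]
    rw [this, norm_zero] at hx1
    exact zero_ne_one hx1
  have h2 : #w' ≤ #w := by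
    by_contra hlt
    rw [not_le] at hlt
    obtain ⟨x, hx1, hx2⟩ := exists_unit_orthogonal b' hM
      (Set.range fun i : w => ContinuousLinearMap.adjoint M.subtypeL (b i))
      (lt_of_le_of_lt Cardinal.mk_range_le hlt)
    have hz : (x : H) = 0 := by
      apply eq_zero_of_orth b
      intro i
      have := hx2 _ ⟨i, rfl⟩
      rw [ContinuousLinearMap.adjoint_inner_left] at this
      exact this
    have : x = 0 := Subtype.ext hz
    rw [this, norm_zero] at hx1
    exact zero_ne_one hx1
  obtain ⟨e⟩ : Nonempty (w' ≃ w) := Cardinal.eq.1 (le_antisymm h2 h1)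
  have ho1 : Orthonormal 𝕜 (fun p : w' => b (e p)) := b.orthonormal.comp _ e.injective
  have hz1 : (Submodule.span 𝕜 (Set.range fun p : w' => b (e p)))ᗮ = ⊥ := by
    rw [eq_bot_iff]
    intro v hv
    rw [Submodule.mem_bot]
    apply eq_zero_of_orth b
    intro j
    have : b j ∈ Submodule.span 𝕜 (Set.range fun p : w' => b (e p)) :=
      Submodule.subset_span ⟨e.symm j, by simp⟩
    rw [Submodule.inner_right_of_mem_orthogonal this hv]
  let b1 : HilbertBasis w' 𝕜 H := HilbertBasis.mkOfOrthogonalEqBot ho1 hz1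
  exact ⟨b'.repr.trans b1.repr.symm⟩

/-- an idempotent whose range contains a complemented copy of `H` is equivalent to `1` -/
theorem mvn (hH : ¬ FiniteDimensional 𝕜 H) (F X l : H →L[𝕜] H) (hF : F * F = F)
    (hX : l * X = 1) (hFX : F * X = X) : ∃ u v : H →L[𝕜] H, v * u = 1 ∧ u * v = F := by
  have eFX : ∀ v, F (X v) = X v := fun v => congrArg (fun T : H →L[𝕜] H => T v) hFX
  have eF : ∀ v, F (F v) = F v := fun v => congrArg (fun T : H →L[𝕜] H => T v) hF
  let M : Submodule 𝕜 H := (ContinuousLinearMap.id 𝕜 H - F).toLinearMap.ker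
  have memM : ∀ v, v ∈ M ↔ F v = v := by
    intro v
    show v - F v = 0 ↔ F v = v
    rw [sub_eq_zero, eq_comm]
  have hclosed : IsClosed (M : Set H) := (ContinuousLinearMap.id 𝕜 H - F).isClosed_ker
  have : CompleteSpace M := hclosed.completeSpace_coe
  obtain ⟨e⟩ := exists_equiv_subspace hH M X l hX (fun v => (memM _).2 (eFX v))
  let u : H →L[𝕜] H := M.subtypeL.comp e.symm.toContinuousLinearEquiv.toContinuousLinearMap
  let v : H →L[𝕜] H := e.toContinuousLinearEquiv.toContinuousLinearMap.comp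
    (F.codRestrict M (fun x => (memM _).2 (eF x)))
  refine ⟨u, v, ?_, ?_⟩
  · refine ContinuousLinearMap.ext fun x => ?_
    show e (F.codRestrict M (fun x => (memM _).2 (eF x)) ((e.symm x : M) : H)) = x
    have : F.codRestrict M (fun x => (memM _).2 (eF x)) ((e.symm x : M) : H) = e.symm x :=
      Subtype.ext ((memM _).1 (e.symm x).2)
    rw [this, e.apply_symm_apply]
  · refine ContinuousLinearMap.ext fun x => ?_
    show ((e.symm (e (F.codRestrict M (fun x => (memM _).2 (eF x)) x)) : M) : H) = F x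
    rw [e.symm_apply_apply]
    rfl

/-- two involutions that move a complemented copy of `H` off itself are similar -/
theorem similar_involutions (hH : ¬ FiniteDimensional 𝕜 H) (J J' X Xs : H →L[𝕜] H)
    (hJ : J * J = 1) (hJ' : J' * J' = 1) (hX : Xs * X = 1) (h1 : Xs * J * X = 0)
    (h2 : Xs * J' * X = 0) :
    ∃ r ri : H →L[𝕜] H, r * ri = 1 ∧ ri * r = 1 ∧ r * J * ri = J' := by
  -- idempotents
  have key : ∀ K : H →L[𝕜] H, K * K = 1 → Xs * K * X = 0 →
      ∃ u v u' v' : H →L[𝕜] H, v * u = 1 ∧ v' * u' = 1 ∧ u * v + u' * v' = 1 ∧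
        v * u' = 0 ∧ v' * u = 0 ∧ u * v - u' * v' = K := by
    intro K hK hXK
    have hX1 : Xs * (X + K * X) = 1 := by rw [mul_add, hX, ← mul_assoc, hXK, add_zero]
    have hX2 : Xs * (X - K * X) = 1 := by rw [mul_sub, hX, ← mul_assoc, hXK, sub_zero]
    have c2 : (2⁻¹ : 𝕜) + 2⁻¹ = 1 := by norm_num
    have c3 : (2⁻¹ : 𝕜) * 2⁻¹ + 2⁻¹ * 2⁻¹ = 2⁻¹ := by norm_num
    let F : H →L[𝕜] H := (2⁻¹ : 𝕜) • (1 + K)
    let F' : H →L[𝕜] H := (2⁻¹ : 𝕜) • (1 - K)
    have hFF : F * F = F := by
      have : F * F = ((2⁻¹ : 𝕜) * 2⁻¹) • ((1 + K) * (1 + K)) := by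
        show (2⁻¹ : 𝕜) • (1 + K) * ((2⁻¹ : 𝕜) • (1 + K)) = _
        rw [smul_mul_smul_comm]
      rw [this]
      have e : (1 + K) * (1 + K) = (2 : 𝕜) • (1 + K) := by
        have : (1 + K) * (1 + K) = 1 + K + K + K * K := by noncomm_ring
        rw [this, hK, two_smul]; abel
      rw [e, smul_smul]
      show _ = (2⁻¹ : 𝕜) • (1 + K)
      norm_num
    have hFF' : F' * F' = F' := by
      have : F' * F' = ((2⁻¹ : 𝕜) * 2⁻¹) • ((1 - K) * (1 - K)) := by
        show (2⁻¹ : 𝕜) • (1 - K) * ((2⁻¹ : 𝕜) • (1 - K)) = _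
        rw [smul_mul_smul_comm]
      rw [this]
      have e : (1 - K) * (1 - K) = (2 : 𝕜) • (1 - K) := by
        have : (1 - K) * (1 - K) = 1 - K - K + K * K := by noncomm_ring
        rw [this, hK, two_smul]; abel
      rw [e, smul_smul]
      show _ = (2⁻¹ : 𝕜) • (1 - K)
      norm_num
    have hFX : F * (X + K * X) = X + K * X := by
      have : F * (X + K * X) = (2⁻¹ : 𝕜) • ((1 + K) * (X + K * X)) := by
        show (2⁻¹ : 𝕜) • (1 + K) * _ = _
        rw [smul_mul_assoc]
      rw [this]
      have e : (1 + K) * (X + K * X) = (2 : 𝕜) • (X + K * X) := by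
        have : (1 + K) * (X + K * X) = X + K * X + K * X + K * K * X := by noncomm_ring
        rw [this, hK, two_smul, one_mul]; abel
      rw [e, smul_smul]
      norm_num
    have hFX' : F' * (X - K * X) = X - K * X := by
      have : F' * (X - K * X) = (2⁻¹ : 𝕜) • ((1 - K) * (X - K * X)) := by
        show (2⁻¹ : 𝕜) • (1 - K) * _ = _
        rw [smul_mul_assoc]
      rw [this]
      have e : (1 - K) * (X - K * X) = (2 : 𝕜) • (X - K * X) := by
        have : (1 - K) * (X - K * X) = X - K * X - K * X + K * K * X := by noncomm_ring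
        rw [this, hK, two_smul, one_mul]; abel
      rw [e, smul_smul]
      norm_num
    have hsum : F + F' = 1 := by
      show (2⁻¹ : 𝕜) • (1 + K) + (2⁻¹ : 𝕜) • (1 - K) = 1
      rw [← smul_add]
      have : (1 + K) + (1 - K) = (2 : 𝕜) • (1 : H →L[𝕜] H) := by rw [two_smul]; abel
      rw [this, smul_smul]
      norm_num
    have hdiff : F - F' = K := by
      show (2⁻¹ : 𝕜) • (1 + K) - (2⁻¹ : 𝕜) • (1 - K) = K
      rw [← smul_sub]
      have : (1 + K) - (1 - K) = (2 : 𝕜) • K := by rw [two_smul]; abel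
      rw [this, smul_smul]
      norm_num
    have hFF0 : F * F' = 0 := by
      have : F * F' = F * (F + F') - F * F := by noncomm_ring
      rw [this, hsum, hFF, mul_one, sub_self]
    have hFF0' : F' * F = 0 := by
      have : F' * F = F' * (F + F') - F' * F' := by noncomm_ring
      rw [this, hsum, hFF', mul_one, sub_self]
    obtain ⟨u, v, a1, a2⟩ := mvn hH F (X + K * X) Xs hFF hX1 hFX
    obtain ⟨u', v', a1', a2'⟩ := mvn hH F' (X - K * X) Xs hFF' hX2 hFX'
    refine ⟨u, v, u', v', a1, a1', by rw [a2, a2', hsum], ?_, ?_, by rw [a2, a2', hdiff]⟩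
    · calc v * u' = (v * u) * v * (u' * (v' * u')) := by rw [a1, a1']; noncomm_ring
        _ = v * ((u * v) * (u' * v')) * u' := by noncomm_ring
        _ = 0 := by rw [a2, a2', hFF0]; noncomm_ring
    · calc v' * u = (v' * u') * v' * (u * (v * u)) := by rw [a1, a1']; noncomm_ring
        _ = v' * ((u' * v') * (u * v)) * u := by noncomm_ring
        _ = 0 := by rw [a2, a2', hFF0']; noncomm_ring
  obtain ⟨u, v, u', v', p1, p2, p3, p4, p5, p6⟩ := key J hJ h1
  obtain ⟨x, y, x', y', q1, q2, q3, q4, q5, q6⟩ := key J' hJ' h2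
  refine ⟨x * v + x' * v', u * y + u' * y', ?_, ?_, ?_⟩
  · have : (x * v + x' * v') * (u * y + u' * y') = x * (v * u) * y + x * (v * u') * y' +
        x' * (v' * u) * y + x' * (v' * u') * y' := by noncomm_ring
    rw [this, p1, p2, p4, p5]
    have : x * 1 * y + x * 0 * y' + x' * 0 * y + x' * 1 * y' = x * y + x' * y' := by
      noncomm_ring
    rw [this, q3]
  · have : (u * y + u' * y') * (x * v + x' * v') = u * (y * x) * v + u * (y * x') * v' +
        u' * (y' * x) * v + u' * (y' * x') * v' := by noncomm_ring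
    rw [this, q1, q2, q4, q5]
    have : u * 1 * v + u * 0 * v' + u' * 0 * v + u' * 1 * v' = u * v + u' * v' := by
      noncomm_ring
    rw [this, p3]
  · rw [← p6, ← q6]
    have : (x * v + x' * v') * (u * v - u' * v') * (u * y + u' * y') =
        x * (v * u) * (v * u) * y + x * (v * u) * (v * u') * y' - x * (v * u') * (v' * u) * y
        - x * (v * u') * (v' * u') * y'
        + x' * (v' * u) * (v * u) * y + x' * (v' * u) * (v * u') * y'
        - x' * (v' * u') * (v' * u) * y - x' * (v' * u') * (v' * u') * y' := by noncomm_ring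
    rw [this, p1, p2, p4, p5]
    noncomm_ring

end Pool.Agent.Y136.HR
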