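import Pool.Agent.Y136.HR.InvA

set_option autoImplicit false
set_option linter.unusedSectionVars false

open scoped InnerProductSpace ENNReal
open Cardinal

namespace Pool.Agent.Y136.HR

universe u v

section Ring

variable {R : Type u} [Ring R]

theorem ring_part' (X Xs Y Ys A Ai : R) (h1 : Xs * X = 1) (h2 : Ys * Y = 1) (h3 : Xs * Y = 0)
    (h4 : Ys * X = 0) (h5 : Ys * A * X = 0) (h6 : Xs * Ai * Y = 0) (h7 : A * Ai = 1)
    (h8 : Ai * A = 1) :
    ∃ J₁ J₂ B Bi : R, J₁ * J₁ = 1 ∧ J₂ * J₂ = 1 ∧ B * Bi = 1 ∧ Bi * B = 1 ∧ A = J₁ * J₂ * B ∧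
      B * X = X ∧ Xs * B = Xs ∧ Xs * J₁ * X = 0 ∧ Xs * J₂ * X = 0 := by
  set J₁ : R := Y * Xs + X * Ys + (1 - X * Xs - Y * Ys) with hJ1
  have eJX : J₁ * X = Y := by
    have : J₁ * X = Y * (Xs * X) + X * (Ys * X) + (X - X * (Xs * X) - Y * (Ys * X)) := by
      rw [hJ1]; noncomm_ring
    rw [this, h1, h4]; noncomm_ring
  have eJY : J₁ * Y = X := by
    have : J₁ * Y = Y * (Xs * Y) + X * (Ys * Y) + (Y - X * (Xs * Y) - Y * (Ys * Y)) := by
      rw [hJ1]; noncomm_ring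
    rw [this, h2, h3]; noncomm_ring
  have eXJ : Xs * J₁ = Ys := by
    have : Xs * J₁ = (Xs * Y) * Xs + (Xs * X) * Ys + (Xs - (Xs * X) * Xs - (Xs * Y) * Ys) := by
      rw [hJ1]; noncomm_ring
    rw [this, h1, h3]; noncomm_ring
  have eJJ : J₁ * J₁ = 1 := by
    have : J₁ * J₁ = (J₁ * Y) * Xs + (J₁ * X) * Ys + (J₁ - (J₁ * X) * Xs - (J₁ * Y) * Ys) := by
      conv_lhs => rw [hJ1]
      conv_rhs => rw [hJ1]
      noncomm_ring
    rw [this, eJX, eJY, hJ1]
    noncomm_ring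
  set A₁ : R := J₁ * A with hA1
  set A₁i : R := Ai * J₁ with hA1i
  have a1 : A₁ * A₁i = 1 := by
    rw [hA1, hA1i, mul_assoc, ← mul_assoc A, h7, one_mul, eJJ]
  have a2 : A₁i * A₁ = 1 := by
    rw [hA1, hA1i, mul_assoc, ← mul_assoc J₁, eJJ, one_mul, h8]
  have b1 : Xs * A₁ * X = 0 := by
    rw [hA1, ← mul_assoc, eXJ, h5]
  have b2 : Xs * A₁i * X = 0 := by
    rw [hA1i, mul_assoc, mul_assoc, eJX, ← mul_assoc, h6]
  set P : R := X * Xs with hP
  have p0 : P * P = P := by rw [hP, mul_assoc, ← mul_assoc Xs, h1, one_mul]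
  have p1 : P * A₁ * P = 0 := by
    have : P * A₁ * P = X * (Xs * A₁ * X) * Xs := by rw [hP]; noncomm_ring
    rw [this, b1]; noncomm_ring
  have p2 : P * A₁i * P = 0 := by
    have : P * A₁i * P = X * (Xs * A₁i * X) * Xs := by rw [hP]; noncomm_ring
    rw [this, b2]; noncomm_ring
  set J₂ : R := A₁ * P + P * A₁i + (1 - P - A₁ * P * A₁i) with hJ2
  have c1 : J₂ * (A₁ * P) = P := by
    have : J₂ * (A₁ * P) = A₁ * (P * A₁ * P) + P * (A₁i * A₁) * P +
        (A₁ * P - P * A₁ * P - A₁ * P * (A₁i * A₁) * P) := by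
      rw [hJ2]; noncomm_ring
    rw [this, p1, a2, mul_one, mul_one, p0, mul_assoc A₁ P P, p0]; noncomm_ring
  have c2 : J₂ * P = A₁ * P := by
    have : J₂ * P = A₁ * (P * P) + P * A₁i * P + (P - P * P - A₁ * (P * A₁i * P)) := by
      rw [hJ2]; noncomm_ring
    rw [this, p2, p0]; noncomm_ring
  have c3 : J₂ * J₂ = 1 := by
    have : J₂ * J₂ = J₂ * (A₁ * P) + (J₂ * P) * A₁i + (J₂ - J₂ * P - (J₂ * (A₁ * P)) * A₁i) := by
      conv_lhs => rw [hJ2]
      conv_rhs => rw [hJ2]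
      noncomm_ring
    rw [this, c1, c2, hJ2]
    noncomm_ring
  refine ⟨J₁, J₂, J₂ * A₁, A₁i * J₂, eJJ, c3, ?_, ?_, ?_, ?_, ?_, ?_, ?_⟩
  · rw [mul_assoc, ← mul_assoc A₁, a1, one_mul, c3]
  · rw [mul_assoc, ← mul_assoc J₂, c3, one_mul, a2]
  · rw [← mul_assoc, mul_assoc J₁, c3, mul_one, hA1, ← mul_assoc, eJJ, one_mul]
  · have hPX : P * X = X := by rw [hP, mul_assoc, h1, mul_one]
    calc J₂ * A₁ * X = J₂ * (A₁ * P) * X := by
          rw [mul_assoc J₂ (A₁ * P) X, mul_assoc A₁ P X, hPX, mul_assoc]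
      _ = X := by rw [c1, hPX]
  · have hXP : Xs * P = Xs := by rw [hP, ← mul_assoc, h1, one_mul]
    have d1 : Xs * A₁ * P = 0 := by rw [hP, ← mul_assoc, b1, zero_mul]
    have : Xs * (J₂ * A₁) = (Xs * A₁ * P) * A₁ + (Xs * P) * (A₁i * A₁) +
        (Xs * A₁ - (Xs * P) * A₁ - (Xs * A₁ * P) * (A₁i * A₁)) := by
      rw [hJ2]; noncomm_ring
    rw [this, d1, hXP, a2]; noncomm_ring
  · rw [mul_assoc, eJX, h3]
  · have hPX : P * X = X := by rw [hP, mul_assoc, h1, mul_one]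
    calc Xs * J₂ * X = Xs * (J₂ * P) * X := by
          rw [mul_assoc Xs (J₂ * P) X, mul_assoc J₂ P X, hPX, mul_assoc]
      _ = Xs * A₁ * (P * X) := by rw [c2]; noncomm_ring
      _ = 0 := by rw [hPX, b1]

end Ring

variable {𝕜 : Type v} [RCLike 𝕜] {H : Type u} [NormedAddCommGroup H] [InnerProductSpace 𝕜 H]
  [CompleteSpace H]

/-- the permutation `… → 4 → 2 → 0 → 1 → 3 → …` -/
def sig : ℕ ≃ ℕ where
  toFun n := if n = 0 then 1 else if n % 2 = 1 then n + 2 else n - 2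
  invFun n := if n = 1 then 0 else if n % 2 = 1 then n - 2 else n + 2
  left_inv n := by
    by_cases h0 : n = 0
    · simp [h0]
    · by_cases h : n % 2 = 1
      · have h1 : (n + 2) % 2 = 1 := by omega
        have h2 : ¬ (n + 2 = 1) := by omega
        simp only [h0, h, h1, h2, if_true, if_false]
        omega
      · have h1 : ¬ (n - 2) % 2 = 1 := by omega
        have h2 : ¬ (n - 2 = 1) := by omega
        simp only [h0, h, h1, h2, if_true, if_false]
        omega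
  right_inv n := by
    by_cases h0 : n = 1
    · simp [h0]
    · by_cases h : n % 2 = 1
      · have h1 : (n - 2) % 2 = 1 := by omega
        have h2 : ¬ (n - 2 = 0) := by omega
        simp only [h0, h, h1, h2, if_true, if_false]
        omega
      · have h1 : ¬ (n + 2) % 2 = 1 := by omega
        have h2 : ¬ (n + 2 = 0) := by omega
        simp only [h0, h, h1, h2, if_true, if_false]
        omega

theorem sig_zero : sig 0 = 1 := rfl
theorem sig_odd {n : ℕ} (h : n % 2 = 1) : sig n = n + 2 := by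
  show (if n = 0 then 1 else if n % 2 = 1 then n + 2 else n - 2) = n + 2
  rw [if_neg (by omega), if_pos h]
theorem sig_even {n : ℕ} (h0 : n ≠ 0) (h : ¬ n % 2 = 1) : sig n = n - 2 := by
  show (if n = 0 then 1 else if n % 2 = 1 then n + 2 else n - 2) = n - 2
  rw [if_neg h0, if_neg h]

/-- the diagonal operator `(B, 1, 1, …)` is a commutator. -/
theorem diag_commutator (B Bi : H →L[𝕜] H) (h1 : B * Bi = 1) (h2 : Bi * B = 1)
    (D : L H →L[𝕜] L H)
    (hD0 : ∀ f, (D f) 0 = B (f 0)) (hD : ∀ f n, n ≠ 0 → (D f) n = f n) :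
    ∃ E Ei Q Qi : L H →L[𝕜] L H, E * Ei = 1 ∧ Ei * E = 1 ∧ Q * Qi = 1 ∧ Qi * Q = 1 ∧
      D = Ei * (Q * E * Qi) := by
  have e1 : ∀ v, B (Bi v) = v := fun v => congrArg (fun T : H →L[𝕜] H => T v) h1
  have e2 : ∀ v, Bi (B v) = v := fun v => congrArg (fun T : H →L[𝕜] H => T v) h2
  set C : ℝ := max (max ‖B‖ ‖Bi‖) ‖(1 : H →L[𝕜] H)‖ with hC
  have c1 : ‖B‖ ≤ C := (le_max_left _ _).trans (le_max_left _ _)
  have c2 : ‖Bi‖ ≤ C := (le_max_right _ _).trans (le_max_left _ _)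
  have c3 : ‖(1 : H →L[𝕜] H)‖ ≤ C := le_max_right _ _
  let F : ℕ → H →L[𝕜] H := fun n => if n % 2 = 1 then B else 1
  let G : ℕ → H →L[𝕜] H := fun n => if n % 2 = 1 then Bi else 1
  have bF : ∀ n, ‖F n‖ ≤ C := fun n => by
    show ‖if n % 2 = 1 then B else 1‖ ≤ C
    split_ifs <;> assumption
  have bG : ∀ n, ‖G n‖ ≤ C := fun n => by
    show ‖if n % 2 = 1 then Bi else 1‖ ≤ C
    split_ifs <;> assumption
  have FG : ∀ n v, F n (G n v) = v := by
    intro n v
    by_cases h : n % 2 = 1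
    · have a1 : F n = B := if_pos h
      have a2 : G n = Bi := if_pos h
      rw [a1, a2, e1]
    · have a1 : F n = 1 := if_neg h
      have a2 : G n = 1 := if_neg h
      rw [a1, a2]; rfl
  have GF : ∀ n v, G n (F n v) = v := by
    intro n v
    by_cases h : n % 2 = 1
    · have a1 : F n = B := if_pos h
      have a2 : G n = Bi := if_pos h
      rw [a1, a2, e2]
    · have a1 : F n = 1 := if_neg h
      have a2 : G n = 1 := if_neg h
      rw [a1, a2]; rfl
  refine ⟨blk (Equiv.refl ℕ) F C bF, blk (Equiv.refl ℕ) G C bG, blk sig (fun _ => 1) C (fun _ => c3),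
    blk sig.symm (fun _ => 1) C (fun _ => c3), ?_, ?_, ?_, ?_, ?_⟩
  · apply L_ext
    intro f n
    exact FG n (f n)
  · apply L_ext
    intro f n
    exact GF n (f n)
  · apply L_ext
    intro f n
    show f (sig.symm (sig n)) = f n
    rw [sig.symm_apply_apply]
  · apply L_ext
    intro f n
    show f (sig (sig.symm n)) = f n
    rw [sig.apply_symm_apply]
  · apply L_ext
    intro f n
    show (D f) n = G n (F (sig n) (f (sig.symm (sig n))))
    rw [sig.symm_apply_apply]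
    by_cases h0 : n = 0
    · subst h0
      rw [hD0]
      rfl
    · rw [hD f n h0]
      by_cases h : n % 2 = 1
      · have a1 : G n = Bi := if_pos h
        have a3 : F (sig n) = B := by
          rw [sig_odd h]; exact if_pos (by omega)
        rw [a1, a3, e2]
      · have a1 : G n = 1 := if_neg h
        have a3 : F (sig n) = 1 := by
          rw [sig_even h0 h]; exact if_neg (by omega)
        rw [a1, a3]
        rfl

/-- if `B` fixes the range of an isometry `X` and `Xs B = Xs`, then `B` is a commutator -/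
theorem commutator_of_fixed (hH : ¬ FiniteDimensional 𝕜 H) (X Xs B Bi : H →L[𝕜] H)
    (hX : Xs * X = 1)
    (h1 : B * Bi = 1) (h2 : Bi * B = 1) (hBX : B * X = X) (hXB : Xs * B = Xs) :
    ∃ E Ei Q Qi : H →L[𝕜] H, E * Ei = 1 ∧ Ei * E = 1 ∧ Q * Qi = 1 ∧ Qi * Q = 1 ∧
      B = Ei * (Q * E * Qi) := by
  classical
  obtain ⟨S⟩ := exists_equiv_seq hH
  have eX : ∀ v, Xs (X v) = v := fun v => congrArg (fun T : H →L[𝕜] H => T v) hX
  have eBX : ∀ v, B (X v) = X v := fun v => congrArg (fun T : H →L[𝕜] H => T v) hBX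
  have eXB : ∀ v, Xs (B v) = Xs v := fun v => congrArg (fun T : H →L[𝕜] H => T v) hXB
  let ev : L H →L[𝕜] H := lp.evalCLM 𝕜 (fun _ : ℕ => H) 2 0
  let sg : H →L[𝕜] L H := lp.singleContinuousLinearMap 𝕜 (fun _ : ℕ => H) 2 0
  have ev_sg : ∀ v, ev (sg v) = v := fun v =>
    lp.single_apply_self (E := fun _ : ℕ => H) 2 0 v
  have sg_ne : ∀ v n, n ≠ 0 → (sg v) n = 0 := fun v n hn =>
    lp.single_apply_ne (E := fun _ : ℕ => H) 2 0 v hn
  let S₁ : H →L[𝕜] L H := S.toContinuousLinearEquiv.toContinuousLinearMap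
  let S₂ : L H →L[𝕜] H := S.symm.toContinuousLinearEquiv.toContinuousLinearMap
  have s12 : ∀ f, S₁ (S₂ f) = f := fun f => S.apply_symm_apply f
  have s21 : ∀ v, S₂ (S₁ v) = v := fun v => S.symm_apply_apply v
  let T : L H →L[𝕜] H := ev - X.comp (Xs.comp ev) +
    X.comp (S₂.comp (ContinuousLinearMap.id 𝕜 (L H) + sg.comp (Xs.comp ev - ev)))
  have hT : ∀ f, T f = (ev f - X (Xs (ev f))) + X (S₂ (f + sg (Xs (ev f) - ev f))) :=
    fun f => rfl
  let T' : H →L[𝕜] L H := S₁.comp Xs +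
    sg.comp (ContinuousLinearMap.id 𝕜 H - X.comp Xs + X.comp (ev.comp (S₁.comp Xs)) -
      ev.comp (S₁.comp Xs))
  have hT' : ∀ v, T' v = S₁ (Xs v) + sg (v - X (Xs v) + X (ev (S₁ (Xs v))) - ev (S₁ (Xs v))) :=
    fun v => rfl
  have hTT' : ∀ v, T (T' v) = v := by
    intro v
    have f0 : ev (T' v) = v - X (Xs v) + X (ev (S₁ (Xs v))) := by
      rw [hT', map_add, ev_sg]
      abel
    have f1 : Xs (ev (T' v)) = ev (S₁ (Xs v)) := by
      rw [f0, map_add, map_sub, eX, eX]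
      abel
    have f2 : T' v + sg (Xs (ev (T' v)) - ev (T' v)) = S₁ (Xs v) := by
      rw [f1, f0, hT', add_assoc, ← map_add]
      have : v - X (Xs v) + X (ev (S₁ (Xs v))) - ev (S₁ (Xs v)) +
          (ev (S₁ (Xs v)) - (v - X (Xs v) + X (ev (S₁ (Xs v))))) = 0 := by abel
      rw [this, map_zero, add_zero]
    rw [hT, f2, f1, f0, s21]
    abel
  have hT'T : ∀ f, T' (T f) = f := by
    intro f
    have f1 : Xs (T f) = S₂ (f + sg (Xs (ev f) - ev f)) := by
      rw [hT, map_add, map_sub, eX, eX]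
      abel
    have f2 : S₁ (Xs (T f)) = f + sg (Xs (ev f) - ev f) := by rw [f1, s12]
    have f3 : ev (S₁ (Xs (T f))) = Xs (ev f) := by
      rw [f2, map_add, ev_sg]; abel
    have f4 : T f - X (Xs (T f)) = ev f - X (Xs (ev f)) := by
      rw [f1, hT]; abel
    rw [hT', f3, f4, f2, add_assoc, ← map_add]
    have : Xs (ev f) - ev f + (ev f - X (Xs (ev f)) + X (Xs (ev f)) - Xs (ev f)) = 0 := by abel
    rw [this, map_zero, add_zero]
  let D : L H →L[𝕜] L H := ContinuousLinearMap.id 𝕜 (L H) + sg.comp (B.comp ev - ev)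
  have hD : ∀ f, D f = f + sg (B (ev f) - ev f) := fun f => rfl
  have hTD : ∀ f, T (D f) = B (T f) := by
    intro f
    have f0 : ev (D f) = B (ev f) := by
      rw [hD, map_add, ev_sg]; abel
    have f1 : D f + sg (Xs (ev (D f)) - ev (D f)) = f + sg (Xs (ev f) - ev f) := by
      rw [f0, eXB, hD, add_assoc, ← map_add]
      congr 2
      abel
    rw [hT (D f), f1, f0, eXB, hT f, map_add B, map_sub B, eBX, eBX]
  obtain ⟨E, Ei, Q, Qi, q1, q2, q3, q4, q5⟩ := diag_commutator B Bi h1 h2 D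
    (fun f => by
      have : ev (D f) = B (ev f) := by rw [hD, map_add, ev_sg]; abel
      exact this)
    (fun f n hn => by
      have : (D f) n = f n + (sg (B (ev f) - ev f)) n := rfl
      rw [this, sg_ne _ _ hn, add_zero])
  have conj_one : ∀ P Q : L H →L[𝕜] L H, P * Q = 1 →
      (T.comp (P.comp T')) * (T.comp (Q.comp T')) = 1 := by
    intro P Q hP
    refine ContinuousLinearMap.ext fun v => ?_
    show T (P (T' (T (Q (T' v))))) = v
    rw [hT'T]
    have : P (Q (T' v)) = T' v := congrArg (fun Q : L H →L[𝕜] L H => Q (T' v)) hP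
    rw [this, hTT']
  refine ⟨T.comp (E.comp T'), T.comp (Ei.comp T'), T.comp (Q.comp T'), T.comp (Qi.comp T'),
    conj_one _ _ q1, conj_one _ _ q2, conj_one _ _ q3, conj_one _ _ q4, ?_⟩
  refine ContinuousLinearMap.ext fun v => ?_
  show B v = T (Ei (T' (T (Q (T' (T (E (T' (T (Qi (T' v)))))))))))
  rw [hT'T, hT'T, hT'T]
  have h5 : D (T' v) = Ei (Q (E (Qi (T' v)))) :=
    congrArg (fun Q : L H →L[𝕜] L H => Q (T' v)) q5
  rw [← h5, hTD, hTT']


/-- every invertible operator is a product of two commutators -/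
theorem two_commutators (hH : ¬ FiniteDimensional 𝕜 H) (A Ai : H →L[𝕜] H) (h1 : A * Ai = 1)
    (h2 : Ai * A = 1) :
    ∃ D Di r ri E Ei Q Qi : H →L[𝕜] H, D * Di = 1 ∧ Di * D = 1 ∧ r * ri = 1 ∧ ri * r = 1 ∧
      E * Ei = 1 ∧ Ei * E = 1 ∧ Q * Qi = 1 ∧ Qi * Q = 1 ∧
      A = Di * (r * D * ri) * (Ei * (Q * E * Qi)) := by
  obtain ⟨X, Y, k1, k2, k3, k4, k5, k6⟩ := exists_isometries hH A Ai
  obtain ⟨J₁, J₂, B, Bi, j1, j2, b1, b2, hA, hBX, hXB, x1, x2⟩ :=
    ring_part' X _ Y _ A Ai k1 k2 k3 k4 k5 k6 h1 h2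
  obtain ⟨r, ri, r1, r2, r3⟩ := similar_involutions hH J₁ J₂ X _ j1 j2 k1 x1 x2
  obtain ⟨E, Ei, Q, Qi, q1, q2, q3, q4, q5⟩ := commutator_of_fixed hH X _ B Bi k1 b1 b2 hBX hXB
  exact ⟨J₁, J₁, r, ri, E, Ei, Q, Qi, j1, j1, r1, r2, q1, q2, q3, q4, by rw [r3, ← q5, ← hA]⟩

end Pool.Agent.Y136.HR
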