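import Pool.Agent.Y136.HR.InvB

set_option autoImplicit false
set_option linter.unusedSectionVars false

namespace Pool.Agent.Y136.HR

universe u v

section Alg

variable {R : Type u} [Ring R]

/-- products of two involutions -/
def I2 (x : R) : Prop := ∃ P Q : R, P * P = 1 ∧ Q * Q = 1 ∧ x = P * Q

/-- products of four involutions -/
def I4 (x : R) : Prop := ∃ P Q P' Q' : R, P * P = 1 ∧ Q * Q = 1 ∧ P' * P' = 1 ∧ Q' * Q' = 1 ∧
  x = P * Q * P' * Q'

theorem conj_sq' (u ui P : R) (h : ui * u = 1) (h' : u * ui = 1) (hP : P * P = 1) :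
    (u * P * ui) * (u * P * ui) = 1 := by
  have : (u * P * ui) * (u * P * ui) = u * P * (ui * u) * P * ui := by noncomm_ring
  rw [this, h]
  have : u * P * 1 * P * ui = u * (P * P) * ui := by noncomm_ring
  rw [this, hP, mul_one, h']

theorem I2.conj {x : R} (hx : I2 x) (u ui : R) (h : ui * u = 1) (h' : u * ui = 1) :
    I2 (u * x * ui) := by
  obtain ⟨P, Q, p, q, rfl⟩ := hx
  refine ⟨u * P * ui, u * Q * ui, conj_sq' u ui P h h' p, conj_sq' u ui Q h h' q, ?_⟩
  have : (u * P * ui) * (u * Q * ui) = u * P * (ui * u) * Q * ui := by noncomm_ring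
  rw [this, h]
  noncomm_ring

theorem I2.mul {x y : R} (hx : I2 x) (hy : I2 y) : I4 (x * y) := by
  obtain ⟨P, Q, p, q, rfl⟩ := hx
  obtain ⟨P', Q', p', q', rfl⟩ := hy
  exact ⟨P, Q, P', Q', p, q, p', q', by noncomm_ring⟩

theorem I4.conj {x : R} (hx : I4 x) (u ui : R) (h : ui * u = 1) (h' : u * ui = 1) :
    I4 (u * x * ui) := by
  obtain ⟨P, Q, P', Q', p, q, p', q', rfl⟩ := hx
  refine ⟨u * P * ui, u * Q * ui, u * P' * ui, u * Q' * ui, conj_sq' u ui P h h' p,
    conj_sq' u ui Q h h' q, conj_sq' u ui P' h h' p', conj_sq' u ui Q' h h' q', ?_⟩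
  have : (u * P * ui) * (u * Q * ui) * (u * P' * ui) * (u * Q' * ui)
      = u * P * (ui * u) * Q * (ui * u) * P' * (ui * u) * Q' * ui := by noncomm_ring
  rw [this, h]
  noncomm_ring

/-- the element with given matrix entries -/
def Phi (X Xs Y Ys a b c d : R) : R := X * a * Xs + X * b * Ys + Y * c * Xs + Y * d * Ys

/-- matrix units for a decomposition into two copies -/
structure Sys (X Xs Y Ys : R) : Prop where
  xx : Xs * X = 1
  yy : Ys * Y = 1
  xy : Xs * Y = 0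
  yx : Ys * X = 0
  sum : X * Xs + Y * Ys = 1

variable {X Xs Y Ys : R}

theorem Phi_one (S : Sys X Xs Y Ys) : Phi X Xs Y Ys 1 0 0 1 = 1 := by
  unfold Phi
  refine Eq.trans ?_ S.sum
  noncomm_ring

theorem Phi_eq_one (S : Sys X Xs Y Ys) {a b c d : R} (ha : a = 1) (hb : b = 0) (hc : c = 0)
    (hd : d = 1) : Phi X Xs Y Ys a b c d = 1 := by
  rw [ha, hb, hc, hd, Phi_one S]

theorem Phi_congr {a b c d a' b' c' d' : R} (ha : a = a') (hb : b = b') (hc : c = c')
    (hd : d = d') : Phi X Xs Y Ys a b c d = Phi X Xs Y Ys a' b' c' d' := by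
  rw [ha, hb, hc, hd]

theorem Phi_mul (S : Sys X Xs Y Ys) (a b c d a' b' c' d' : R) :
    Phi X Xs Y Ys a b c d * Phi X Xs Y Ys a' b' c' d' =
      Phi X Xs Y Ys (a * a' + b * c') (a * b' + b * d') (c * a' + d * c') (c * b' + d * d') := by
  unfold Phi
  have : (X * a * Xs + X * b * Ys + Y * c * Xs + Y * d * Ys) *
      (X * a' * Xs + X * b' * Ys + Y * c' * Xs + Y * d' * Ys) =
      X * a * (Xs * X) * a' * Xs + X * a * (Xs * X) * b' * Ys + X * a * (Xs * Y) * c' * Xs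
        + X * a * (Xs * Y) * d' * Ys
      + (X * b * (Ys * X) * a' * Xs + X * b * (Ys * X) * b' * Ys + X * b * (Ys * Y) * c' * Xs
        + X * b * (Ys * Y) * d' * Ys)
      + (Y * c * (Xs * X) * a' * Xs + Y * c * (Xs * X) * b' * Ys + Y * c * (Xs * Y) * c' * Xs
        + Y * c * (Xs * Y) * d' * Ys)
      + (Y * d * (Ys * X) * a' * Xs + Y * d * (Ys * X) * b' * Ys + Y * d * (Ys * Y) * c' * Xs
        + Y * d * (Ys * Y) * d' * Ys) := by noncomm_ring
  rw [this, S.xx, S.yy, S.xy, S.yx]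
  noncomm_ring

theorem diag_I2 (S : Sys X Xs Y Ys) (g gi r ri : R) (h1 : g * gi = 1) (h2 : gi * g = 1)
    (h3 : r * ri = 1) (h4 : ri * r = 1) : I2 (Phi X Xs Y Ys gi 0 0 (r * g * ri)) := by
  refine ⟨Phi X Xs Y Ys 0 (gi * ri) (r * g) 0, Phi X Xs Y Ys 0 ri r 0, ?_, ?_, ?_⟩
  · rw [Phi_mul S]
    apply Phi_eq_one S
    · have : (0 : R) * 0 + gi * ri * (r * g) = gi * (ri * r) * g := by noncomm_ring
      rw [this, h4, mul_one, h2]
    · simp
    · simp
    · have : r * g * (gi * ri) + 0 * (0 : R) = r * (g * gi) * ri := by noncomm_ring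
      rw [this, h1, mul_one, h3]
  · rw [Phi_mul S]
    apply Phi_eq_one S
    · simp [h4]
    · simp
    · simp
    · simp [h3]
  · rw [Phi_mul S]
    apply Phi_congr
    · have : (0 : R) * 0 + gi * ri * r = gi * (ri * r) := by noncomm_ring
      rw [this, h4, mul_one]
    · simp
    · simp
    · simp

theorem lower_I2 (S : Sys X Xs Y Ys) (g gi r ri l z : R) (h1 : g * gi = 1) (h2 : gi * g = 1)
    (h3 : r * ri = 1) (h4 : ri * r = 1) (hz : r * g * ri * z - z * gi = l) :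
    I2 (Phi X Xs Y Ys gi 0 l (r * g * ri)) := by
  have e1 : Phi X Xs Y Ys 1 0 z 1 * Phi X Xs Y Ys 1 0 (-z) 1 = 1 := by
    rw [Phi_mul S]
    apply Phi_eq_one S <;> noncomm_ring
  have e2 : Phi X Xs Y Ys 1 0 (-z) 1 * Phi X Xs Y Ys 1 0 z 1 = 1 := by
    rw [Phi_mul S]
    apply Phi_eq_one S <;> noncomm_ring
  have := (diag_I2 S g gi r ri h1 h2 h3 h4).conj _ _ e1 e2
  rw [Phi_mul S, Phi_mul S] at this
  convert this using 2
  · noncomm_ring
  · noncomm_ring
  · rw [← hz]; noncomm_ring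
  · noncomm_ring

theorem upper_I2 (S : Sys X Xs Y Ys) (g gi r ri l y : R) (h1 : g * gi = 1) (h2 : gi * g = 1)
    (h3 : r * ri = 1) (h4 : ri * r = 1) (hy : gi * y - y * (r * g * ri) = l) :
    I2 (Phi X Xs Y Ys gi l 0 (r * g * ri)) := by
  have e1 : Phi X Xs Y Ys 1 y 0 1 * Phi X Xs Y Ys 1 (-y) 0 1 = 1 := by
    rw [Phi_mul S]
    apply Phi_eq_one S <;> noncomm_ring
  have e2 : Phi X Xs Y Ys 1 (-y) 0 1 * Phi X Xs Y Ys 1 y 0 1 = 1 := by
    rw [Phi_mul S]
    apply Phi_eq_one S <;> noncomm_ring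
  have := (diag_I2 S g gi r ri h1 h2 h3 h4).conj _ _ e1 e2
  rw [Phi_mul S, Phi_mul S] at this
  convert this using 2
  · noncomm_ring
  · rw [← hy]; noncomm_ring
  · noncomm_ring
  · noncomm_ring

/-- the algebraic core -/
theorem core_I4 (S : Sys X Xs Y Ys) (g gi r ri h hi q qi b d z y : R)
    (g1 : g * gi = 1) (g2 : gi * g = 1) (r1 : r * ri = 1) (r2 : ri * r = 1)
    (k1 : h * hi = 1) (k2 : hi * h = 1) (q1 : q * qi = 1) (q2 : qi * q = 1)
    (hb : (r * g * ri) * (q * h * qi) = -(h * g * b))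
    (hz : r * g * ri * z - z * gi = h)
    (hy : hi * y - y * (q * h * qi) = g * (b + gi * hi * (d - gi * hi))) :
    I4 (Phi X Xs Y Ys 0 b 1 d) := by
  have hX := lower_I2 S g gi r ri h z g1 g2 r1 r2 hz
  have hY := upper_I2 S h hi q qi (g * (b + gi * hi * (d - gi * hi))) y k1 k2 q1 q2 hy
  have e1 : Phi X Xs Y Ys 1 (gi * hi) 0 1 * Phi X Xs Y Ys 1 (-(gi * hi)) 0 1 = 1 := by
    rw [Phi_mul S]
    apply Phi_eq_one S <;> noncomm_ring
  have e2 : Phi X Xs Y Ys 1 (-(gi * hi)) 0 1 * Phi X Xs Y Ys 1 (gi * hi) 0 1 = 1 := by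
    rw [Phi_mul S]
    apply Phi_eq_one S <;> noncomm_ring
  have := (hX.mul hY).conj _ _ e1 e2
  rw [Phi_mul S, Phi_mul S, Phi_mul S] at this
  have m1 : h * g * (gi * hi) = 1 := by
    have : h * g * (gi * hi) = h * (g * gi) * hi := by noncomm_ring
    rw [this, g1, mul_one, k1]
  have m2 : gi * (g * (b + gi * hi * (d - gi * hi))) = b + gi * hi * (d - gi * hi) := by
    rw [← mul_assoc, g2, one_mul]
  have m3 : h * (g * (b + gi * hi * (d - gi * hi))) + r * g * ri * (q * h * qi) =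
      d - gi * hi := by
    have : h * (g * (b + gi * hi * (d - gi * hi))) + r * g * ri * (q * h * qi) =
      h * g * b + (h * g * (gi * hi)) * (d - gi * hi) + r * g * ri * (q * h * qi) := by
      noncomm_ring
    rw [this, m1, hb]
    noncomm_ring
  convert this using 2
  · simp only [mul_zero, add_zero, zero_mul, one_mul, k1, mul_one]
    abel
  · simp only [mul_zero, add_zero, zero_mul, one_mul, k1, mul_one]
    rw [m2, m3]
    noncomm_ring
  · simp only [mul_zero, add_zero, zero_mul, one_mul, k1, mul_one, zero_add]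
  · simp only [mul_zero, add_zero, zero_mul, one_mul, k1, mul_one, zero_add]
    rw [m3]
    noncomm_ring

end Alg

section Banach

variable {R : Type u} [NormedRing R] [CompleteSpace R]

theorem sylvester (p q w : R) (h : ‖p‖ * ‖q‖ < 1) : ∃ z : R, z - p * z * q = w := by
  have h0 : 0 ≤ ‖p‖ * ‖q‖ := by positivity
  let K : NNReal := ⟨‖p‖ * ‖q‖, h0⟩
  have hK : K < 1 := by
    rw [← NNReal.coe_lt_coe]
    exact h
  have hc : ContractingWith K (fun z : R => w + p * z * q) := by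
    refine ⟨hK, LipschitzWith.of_dist_le_mul fun a b => ?_⟩
    rw [dist_eq_norm, dist_eq_norm]
    have e : w + p * a * q - (w + p * b * q) = p * (a - b) * q := by noncomm_ring
    rw [e]
    calc ‖p * (a - b) * q‖ ≤ ‖p * (a - b)‖ * ‖q‖ := norm_mul_le _ _
      _ ≤ ‖p‖ * ‖a - b‖ * ‖q‖ := by gcongr; exact norm_mul_le _ _
      _ = ‖p‖ * ‖q‖ * ‖a - b‖ := by ring
  refine ⟨hc.fixedPoint, ?_⟩
  have := hc.fixedPoint_isFixedPt
  have e : w + p * hc.fixedPoint * q = hc.fixedPoint := this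
  rw [sub_eq_iff_eq_add]
  exact e.symm

/-- a small positive scalar -/
theorem exists_small (a : ℝ) (ha : 0 ≤ a) : ∃ s : ℝ, 0 < s ∧ s * s * a < 1 := by
  refine ⟨(1 + a)⁻¹, by positivity, ?_⟩
  have h1 : (1 + a)⁻¹ * (1 + a) = 1 := inv_mul_cancel₀ (by positivity)
  have h2 : (1 + a)⁻¹ ≤ 1 := inv_le_one_of_one_le₀ (by linarith)
  have h3 : 0 < (1 + a)⁻¹ := by positivity
  nlinarith [mul_nonneg h3.le ha]

/-- the block matrix `(0 b; 1 d)` is a product of four involutions when `-b` is a product of two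
commutators -/
theorem block_I4 (𝕜 : Type v) [RCLike 𝕜] [NormedAlgebra 𝕜 R] {X Xs Y Ys : R} (S : Sys X Xs Y Ys) (b d D Di r ri E Ei Q Qi : R)
    (d1 : D * Di = 1) (d2 : Di * D = 1) (r1 : r * ri = 1) (r2 : ri * r = 1)
    (e1 : E * Ei = 1) (e2 : Ei * E = 1) (q1 : Q * Qi = 1) (q2 : Qi * Q = 1)
    (hb : -b = Di * (r * D * ri) * (Ei * (Q * E * Qi))) :
    I4 (Phi X Xs Y Ys 0 b 1 d) := by
  obtain ⟨s, s0, hs⟩ := exists_small (‖E * r * D * (ri * Ei)‖ * ‖D‖) (by positivity)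
  obtain ⟨t, t0, ht⟩ := exists_small (‖E‖ * ‖Q * E * Qi‖) (by positivity)
  have sc : ((s : ℝ) : 𝕜) ≠ 0 := RCLike.ofReal_ne_zero.2 s0.ne'
  have tc : ((t : ℝ) : 𝕜) ≠ 0 := RCLike.ofReal_ne_zero.2 t0.ne'
  have ns : ‖((s : ℝ) : 𝕜)‖ = s := by rw [RCLike.norm_ofReal, abs_of_pos s0]
  have nt : ‖((t : ℝ) : 𝕜)‖ = t := by rw [RCLike.norm_ofReal, abs_of_pos t0]
  set σ : 𝕜 := ((s : ℝ) : 𝕜) with hσ
  set τ : 𝕜 := ((t : ℝ) : 𝕜) with hτ
  have g1 : (σ • D) * (σ⁻¹ • Di) = 1 := by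
    rw [smul_mul_smul_comm, d1, mul_inv_cancel₀ sc, one_smul]
  have g2 : (σ⁻¹ • Di) * (σ • D) = 1 := by
    rw [smul_mul_smul_comm, d2, inv_mul_cancel₀ sc, one_smul]
  have k1 : (τ • E) * (τ⁻¹ • Ei) = 1 := by
    rw [smul_mul_smul_comm, e1, mul_inv_cancel₀ tc, one_smul]
  have k2 : (τ⁻¹ • Ei) * (τ • E) = 1 := by
    rw [smul_mul_smul_comm, e2, inv_mul_cancel₀ tc, one_smul]
  have rr1 : (E * r) * (ri * Ei) = 1 := by
    have : (E * r) * (ri * Ei) = E * (r * ri) * Ei := by noncomm_ring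
    rw [this, r1, mul_one, e1]
  have rr2 : (ri * Ei) * (E * r) = 1 := by
    have : (ri * Ei) * (E * r) = ri * (Ei * E) * r := by noncomm_ring
    rw [this, e2, mul_one, r2]
  -- the Sylvester equations
  obtain ⟨z, hz⟩ := sylvester (E * r * (σ • D) * (ri * Ei)) (σ • D) (-((τ • E) * (σ • D))) (by
    have : E * r * (σ • D) * (ri * Ei) = σ • (E * r * D * (ri * Ei)) := by
      rw [mul_smul_comm, smul_mul_assoc]
    rw [this, norm_smul, norm_smul, ns]
    calc s * ‖E * r * D * (ri * Ei)‖ * (s * ‖D‖) = s * s * (‖E * r * D * (ri * Ei)‖ * ‖D‖) := by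
          ring
      _ < 1 := hs)
  set g := σ • D with hg
  set gi := σ⁻¹ • Di with hgi
  set h := τ • E with hh
  set hi := τ⁻¹ • Ei with hhi
  have hz' : E * r * g * (ri * Ei) * z - z * gi = h := by
    have : E * r * g * (ri * Ei) * z - z * gi =
        -((z - E * r * g * (ri * Ei) * z * g) * gi) + E * r * g * (ri * Ei) * z * (1 - g * gi)
        := by noncomm_ring
    rw [this, hz, g1]
    have : -(-(h * g) * gi) + E * r * g * (ri * Ei) * z * (1 - 1) = h * (g * gi) := by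
      noncomm_ring
    rw [this, g1, mul_one]
  set U := g * (b + gi * hi * (d - gi * hi)) with hU
  obtain ⟨y, hy⟩ := sylvester h (Q * h * Qi) (h * U) (by
    have : Q * h * Qi = τ • (Q * E * Qi) := by
      rw [hh, mul_smul_comm, smul_mul_assoc]
    rw [this, hh, norm_smul, norm_smul, nt]
    calc t * ‖E‖ * (t * ‖Q * E * Qi‖) = t * t * (‖E‖ * ‖Q * E * Qi‖) := by ring
      _ < 1 := ht)
  have hy' : hi * y - y * (Q * h * Qi) = U := by
    have : hi * y - y * (Q * h * Qi) = hi * (y - h * y * (Q * h * Qi)) - (1 - hi * h) * y *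
      (Q * h * Qi) := by noncomm_ring
    rw [this, hy, k2]
    have : hi * (h * U) - (1 - 1) * y * (Q * h * Qi) = (hi * h) * U := by noncomm_ring
    rw [this, k2, one_mul]
  refine core_I4 S g gi (E * r) (ri * Ei) h hi Q Qi b d z y g1 g2 rr1 rr2 k1 k2 q1 q2 ?_ hz' hy'
  have hgg : g = σ • D := rfl
  have hhh : h = τ • E := rfl
  have : h * g * b = (τ * σ) • (E * D * b) := by
    rw [hgg, hhh, smul_mul_smul_comm, smul_mul_assoc]
  rw [this]
  have hb' : E * D * b = -(E * (r * D * ri) * (Ei * (Q * E * Qi))) := by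
    have : E * D * b = -(E * D * (-b)) := by noncomm_ring
    rw [this, hb]
    have : E * D * (Di * (r * D * ri) * (Ei * (Q * E * Qi))) =
      E * (D * Di) * (r * D * ri) * (Ei * (Q * E * Qi)) := by noncomm_ring
    rw [this, d1]
    noncomm_ring
  rw [hb', hgg, hhh]
  simp only [mul_smul_comm, smul_mul_assoc, smul_smul, smul_neg, neg_neg]
  congr 1
  noncomm_ring

end Banach

end Pool.Agent.Y136.HR
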